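import Pool.Agent.helper82.CH.SpecA

/-!
# Project CH (MP_2e0e07_nt), row MFN: degree one primes of a field with roots of unity
-/

set_option autoImplicit false

open NumberField Complex Pool.Agent.UN

namespace Pool.Agent.CH

theorem MFN_nd (F : Type) [Field F] [NumberField F] (n : ℕ) : nd F n = (idl F n).card := by
  unfold nd idl
  rw [← Set.ncard_eq_toFinset_card _ (Ideal.finite_setOfPred_absNorm_eq (S := 𝓞 F) n)]
  rfl

theorem MFN_mem (F : Type) [Field F] [NumberField F] (n : ℕ) (I : Ideal (𝓞 F)) : I ∈ idl F n ↔ Ideal.absNorm I = n := by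
  unfold idl
  rw [Set.Finite.mem_toFinset]
  rfl

theorem MFN_prime (F : Type) [Field F] [NumberField F] (p : ℕ) (hp : p.Prime) (I : Ideal (𝓞 F)) (hI : Ideal.absNorm I = p) :
    I.IsPrime ∧ I ≠ ⊥ ∧ I.IsMaximal := by
  have h1 : I.IsPrime := Ideal.isPrime_of_irreducible_absNorm (by rw [hI]; exact hp)
  have h2 : I ≠ ⊥ := by
    intro h
    rw [h, Ideal.absNorm_bot] at hI
    exact hp.ne_zero hI.symm
  exact ⟨h1, h2, h1.isMaximal h2⟩

theorem MFN_comap (F M : Type) [Field F] [NumberField F] [Field M] [NumberField M] [Algebra F M] (p : ℕ) (hp : p.Prime)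
    (Q : Ideal (𝓞 M)) (hQ : Ideal.absNorm Q = p) : Ideal.absNorm (Q.comap (algebraMap (𝓞 F) (𝓞 M))) = p := by
  obtain ⟨h1, h2, h3⟩ := MFN_prime M p hp Q hQ
  set P := Q.comap (algebraMap (𝓞 F) (𝓞 M)) with hP
  have hcP : Ideal.absNorm P = Nat.card (𝓞 F ⧸ P) := rfl
  have hcQ : Ideal.absNorm Q = Nat.card (𝓞 M ⧸ Q) := rfl
  have hinj : Function.Injective (Ideal.quotientMap Q (algebraMap (𝓞 F) (𝓞 M)) (le_of_eq hP)) :=
    Ideal.quotientMap_injective' (le_of_eq hP.symm)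
  have hdvd : Nat.card (𝓞 F ⧸ P) ∣ Nat.card (𝓞 M ⧸ Q) :=
    AddSubgroup.card_dvd_of_injective (Ideal.quotientMap Q (algebraMap (𝓞 F) (𝓞 M)) (le_of_eq hP)).toAddMonoidHom hinj
  rw [← hcP, ← hcQ, hQ] at hdvd
  rcases (Nat.dvd_prime hp).1 hdvd with h | h
  · exfalso
    rw [Ideal.absNorm_eq_one_iff] at h
    have h4 : (1 : 𝓞 F) ∈ P := by rw [h]; trivial
    rw [hP, Ideal.mem_comap, map_one] at h4
    exact h1.ne_top ((Ideal.eq_top_iff_one Q).2 h4)
  · exact h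

theorem MFN : MFN_stmt := by
  intro F M _ _ _ _ _ m z hm hz p hp hpm
  refine ⟨?_, ?_⟩
  · have hinj : Function.Injective (algebraMap (𝓞 F) (𝓞 M)) := FaithfulSMul.algebraMap_injective _ _
    have hnz : NoZeroSMulDivisors (𝓞 F) (𝓞 M) := ⟨fun {c x} h => by
      rw [Algebra.smul_def, mul_eq_zero] at h
      refine h.imp_left (fun h1 => hinj ?_)
      rw [h1, map_zero]⟩
    rw [MFN_nd, MFN_nd]
    refine Finset.card_le_mul_card_image_of_maps_to (f := fun Q : Ideal (𝓞 M) => Q.comap (algebraMap (𝓞 F) (𝓞 M))) ?_ _ ?_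
    · intro Q hQ
      rw [MFN_mem] at hQ ⊢
      exact MFN_comap F M p hp Q hQ
    · intro P hP
      rw [MFN_mem] at hP
      obtain ⟨h1, h2, h3⟩ := MFN_prime F p hp P hP
      refine le_trans (Finset.card_le_card ?_) (Ideal.card_primesOverFinset_le_finrank (𝓞 M) F M h2)
      intro Q hQ
      rw [Finset.mem_filter, MFN_mem] at hQ
      rw [IsDedekindDomain.mem_primesOverFinset_iff h2]
      exact ⟨(MFN_prime M p hp Q hQ.1).1, ⟨hQ.2.symm⟩⟩
  · intro hne
    rw [MFN_nd] at hne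
    obtain ⟨Q, hQ⟩ := Finset.card_pos.1 (Nat.pos_of_ne_zero hne)
    rw [MFN_mem] at hQ
    obtain ⟨h1, h2, h3⟩ := MFN_prime M p hp Q hQ
    haveI : NeZero m := ⟨hm.ne'⟩
    have hz1 : IsPrimitiveRoot hz.toInteger m := hz.toInteger_isPrimitiveRoot
    have hcard : Nat.card (𝓞 M ⧸ Q) = p := hQ
    haveI hfin : Finite (𝓞 M ⧸ Q) := Nat.finite_of_card_ne_zero (by rw [hcard]; exact hp.ne_zero)
    letI : Field (𝓞 M ⧸ Q) := Ideal.Quotient.field Q
    letI : Fintype (𝓞 M ⧸ Q) := Fintype.ofFinite _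
    have hm0 : ((m : ℕ) : 𝓞 M ⧸ Q) ≠ 0 := by
      intro h0
      have hp0 : ((p : ℕ) : 𝓞 M ⧸ Q) = 0 := by
        have h4 := Ideal.absNorm_mem Q
        rw [hQ] at h4
        rw [← map_natCast (Ideal.Quotient.mk Q)]
        exact Ideal.Quotient.eq_zero_iff_mem.2 h4
      have hco : IsCoprime (p : ℤ) (m : ℤ) := Nat.isCoprime_iff_coprime.2 ((Nat.Prime.coprime_iff_not_dvd hp).2 hpm)
      obtain ⟨a, b, hab⟩ := hco
      have h5 := congrArg (Int.cast : ℤ → 𝓞 M ⧸ Q) hab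
      push_cast at h5
      rw [hp0, h0, mul_zero, mul_zero, add_zero] at h5
      exact zero_ne_one h5
    haveI : NeZero ((m : ℕ) : 𝓞 M ⧸ Q) := ⟨hm0⟩
    have hr : IsPrimitiveRoot (Ideal.Quotient.mk Q hz.toInteger) m := by
      rw [← Polynomial.isRoot_cyclotomic_iff]
      have h6 := (hz1.isRoot_cyclotomic hm).map (f := Ideal.Quotient.mk Q)
      rwa [Polynomial.map_cyclotomic] at h6
    have h7 : (Ideal.Quotient.mk Q hz.toInteger) ^ (Fintype.card (𝓞 M ⧸ Q) - 1) = 1 :=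
      FiniteField.pow_card_sub_one_eq_one _ (hr.ne_zero hm.ne')
    rw [← Nat.card_eq_fintype_card, hcard] at h7
    have h8 := hr.dvd_of_pow_eq_one _ h7
    exact ((Nat.modEq_iff_dvd' hp.one_lt.le).2 h8).symm

end Pool.Agent.CH
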