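import Pool.Agent.helper82.CH.SpecE2

/-!
# Project CH (MP_2e0e07_nt), stage 2, row RSA: lower bound at `1` from a zero at `-2`
-/

set_option autoImplicit false

open Complex

namespace Pool.Agent.CHE

/-- derivatives of `1 / (s - 1)` at `2` -/
theorem RSA_inv (k : ℕ) : ∀ s : ℂ, s ≠ 1 → iteratedDeriv k (fun s : ℂ => (s - 1)⁻¹) s = (-1) ^ k * (k.factorial : ℂ) * ((s - 1) ^ (k + 1))⁻¹ := by
  induction k with
  | zero =>
    intro s _
    rw [iteratedDeriv_zero]
    simp
  | succ k ih =>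
    intro s hs
    have hs0 : s - 1 ≠ 0 := sub_ne_zero.2 hs
    rw [iteratedDeriv_succ]
    have h1 : iteratedDeriv k (fun s : ℂ => (s - 1)⁻¹) =ᶠ[nhds s] fun s => (-1) ^ k * (k.factorial : ℂ) * ((s - 1) ^ (k + 1))⁻¹ := by
      filter_upwards [isOpen_ne.mem_nhds hs] with w hw
      exact ih w hw
    rw [h1.deriv_eq]
    have h2 : HasDerivAt (fun s : ℂ => (s - 1) ^ (k + 1)) (((k + 1 : ℕ) : ℂ) * (s - 1) ^ k) s := by
      have h3 := ((hasDerivAt_id s).sub_const 1).fun_pow (k + 1)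
      simpa using h3
    have h4 := (h2.inv (pow_ne_zero _ hs0)).const_mul ((-1) ^ k * (k.factorial : ℂ))
    have h5 : deriv (fun s : ℂ => (-1) ^ k * (k.factorial : ℂ) * ((s - 1) ^ (k + 1))⁻¹) s = _ := h4.deriv
    rw [h5, Nat.factorial_succ]
    push_cast
    field_simp
    ring

theorem RSA_log : 7 / 32 ≤ Real.log (5 / 4) := by
  have h1 : Real.exp 7 ≤ (5 / 4 : ℝ) ^ 32 := by
    have h2 : Real.exp 7 = Real.exp 1 ^ 7 := by
      rw [← Real.exp_nat_mul]
      norm_num
    rw [h2]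
    refine (pow_le_pow_left₀ (Real.exp_pos 1).le Real.exp_one_lt_d9.le 7).trans ?_
    norm_num
  have h3 : (7 : ℝ) ≤ Real.log ((5 / 4 : ℝ) ^ 32) := (Real.le_log_iff_exp_le (by positivity)).2 h1
  rw [Real.log_pow] at h3
  push_cast at h3
  linarith

theorem RSA_exp : Real.exp (-(5 / 2)) ≤ 1 / 10 := by
  have h1 : (10 : ℝ) ≤ Real.exp (5 / 2) := by
    have h2 : (10 : ℝ) ^ 2 ≤ Real.exp (5 / 2) ^ 2 := by
      have h3 : Real.exp (5 / 2) ^ 2 = Real.exp 1 ^ 5 := by
        rw [← Real.exp_nat_mul, ← Real.exp_nat_mul]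
        norm_num
      rw [h3]
      refine le_trans ?_ (pow_le_pow_left₀ (by norm_num) Real.exp_one_gt_d9.le 5)
      norm_num
    exact le_of_sq_le_sq h2 (Real.exp_pos _).le
  rw [Real.exp_neg, one_div]
  exact inv_anti₀ (by norm_num) h1

theorem RSA : RSA_stmt := by
  intro Z f b G hG hZ hbd hZ2 hZf hb hb0 hit
  set κ : ℂ := Z 1 with hκ
  set h : ℂ → ℂ := dslope Z 1 with hh
  have hhd : Differentiable ℂ h := by
    rw [← differentiableOn_univ]
    exact (Complex.differentiableOn_dslope Filter.univ_mem).2 hZ.differentiableOn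
  have hhs : ∀ s : ℂ, s ≠ 1 → h s = (Z s - κ) / (s - 1) := by
    intro s hs
    rw [hh, dslope_of_ne _ hs, slope_def_field]
  -- derivatives of `h` at `2`
  have hder : ∀ k : ℕ, iteratedDeriv k h 2 = (-1) ^ k * (k.factorial : ℂ) * ((b k : ℂ) - κ) := by
    intro k
    have h1 : f =ᶠ[nhds 2] fun s => h s + κ * (s - 1)⁻¹ := by
      have h2 : {s : ℂ | 1 < s.re} ∈ nhds (2 : ℂ) := (isOpen_lt continuous_const Complex.continuous_re).mem_nhds (by simp)
      filter_upwards [h2] with s hs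
      have hs1 : s ≠ 1 := by
        intro h3
        rw [h3] at hs
        simp at hs
      have hs0 : s - 1 ≠ 0 := sub_ne_zero.2 hs1
      rw [hhs s hs1, hZf s hs]
      field_simp
      ring
    have h3 : iteratedDeriv k f 2 = iteratedDeriv k (fun s => h s + κ * (s - 1)⁻¹) 2 := h1.iteratedDeriv_eq k
    have h4 : ContDiffAt ℂ k h 2 := hhd.contDiff.contDiffAt
    have h5 : ContDiffAt ℂ k (fun s : ℂ => (s - 1)⁻¹) 2 := by
      refine ContDiffAt.inv (contDiffAt_id.sub contDiffAt_const) ?_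
      norm_num
    have h6 : iteratedDeriv k (fun s => h s + κ * (s - 1)⁻¹) 2 = iteratedDeriv k h 2 + κ * ((-1) ^ k * (k.factorial : ℂ)) := by
      have h7 : (fun s => h s + κ * (s - 1)⁻¹) = h + fun s => κ * (s - 1)⁻¹ := rfl
      rw [h7, iteratedDeriv_add h4 (contDiffAt_const.mul h5), iteratedDeriv_const_mul_field, RSA_inv k 2 (by norm_num)]
      have h8 : ((2 : ℂ) - 1) = 1 := by norm_num
      rw [h8, one_pow, inv_one, mul_one]
    rw [h6, hit k] at h3
    linear_combination -h3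
  -- Cauchy's estimates
  have hκb : ‖κ‖ ≤ Real.exp G := hbd 1 (by norm_num)
  have hcau : ∀ k : ℕ, ‖(b k : ℂ) - κ‖ ≤ Real.exp G / 5 ^ k := by
    intro k
    have h1 : ‖iteratedDeriv k h 2‖ ≤ k.factorial * Real.exp G / 5 ^ k := by
      refine Complex.norm_iteratedDeriv_le_of_forall_mem_sphere_norm_le k (by norm_num) hhd.diffContOnCl ?_
      intro s hs
      rw [mem_sphere_iff_norm] at hs
      have hs1 : 4 ≤ ‖s - 1‖ := by
        have h2 : ‖s - 2‖ ≤ ‖s - 1‖ + ‖(1 : ℂ)‖ := by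
          have h3 : s - 2 = (s - 1) - 1 := by ring
          rw [h3]
          exact norm_sub_le _ _
        rw [hs, norm_one] at h2
        linarith
      have hs2 : s ≠ 1 := by
        intro h3
        rw [h3, sub_self, norm_zero] at hs1
        linarith
      rw [hhs s hs2, norm_div, div_le_iff₀ (by linarith)]
      have h4 := norm_sub_le (Z s) κ
      have h5 := hbd s hs.le
      have h6 := Real.exp_pos G
      nlinarith
    rw [hder k, norm_mul, norm_mul, norm_pow, norm_neg, norm_one, one_pow, one_mul, Complex.norm_natCast, mul_div_assoc] at h1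
    exact le_of_mul_le_mul_left h1 (by positivity)
  -- Taylor's series
  have hsum : HasSum (fun k : ℕ => (4 : ℂ) ^ k * ((b k : ℂ) - κ)) (κ / 3) := by
    have h1 := Complex.hasSum_taylorSeries_of_entire hhd 2 (-2)
    have h2 : h (-2) = κ / 3 := by
      rw [hhs (-2) (by norm_num), hZ2]
      ring
    rw [h2] at h1
    have h3 : (fun n : ℕ => ((n.factorial : ℂ))⁻¹ • ((-2 : ℂ) - 2) ^ n • iteratedDeriv n h 2) = fun k : ℕ => (4 : ℂ) ^ k * ((b k : ℂ) - κ) := by
      funext k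
      have hk : (k.factorial : ℂ) ≠ 0 := Nat.cast_ne_zero.2 (Nat.factorial_ne_zero k)
      have h4 : ((-2 : ℂ) - 2) ^ k = (4 : ℂ) ^ k * (-1) ^ k := by
        rw [← mul_pow]
        norm_num
      have h5 : ((-1 : ℂ)) ^ k * (-1) ^ k = 1 := by
        rw [← mul_pow]
        norm_num
      rw [hder k, h4, smul_eq_mul, smul_eq_mul]
      have h6 : ((k.factorial : ℂ))⁻¹ * ((4 : ℂ) ^ k * (-1) ^ k * ((-1) ^ k * (k.factorial : ℂ) * ((b k : ℂ) - κ))) =
          (((k.factorial : ℂ))⁻¹ * (k.factorial : ℂ)) * ((-1) ^ k * (-1) ^ k) * ((4 : ℂ) ^ k * ((b k : ℂ) - κ)) := by ring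
      rw [h6, inv_mul_cancel₀ hk, h5, one_mul, one_mul]
    rw [h3] at h1
    exact h1
  set κ' : ℝ := κ.re with hκ'
  have hsum' : HasSum (fun k : ℕ => (4 : ℝ) ^ k * (b k - κ')) (κ' / 3) := by
    have h1 := Complex.hasSum_re hsum
    have h2 : (κ / 3).re = κ' / 3 := by
      have : κ / 3 = κ / ((3 : ℝ) : ℂ) := by norm_num
      rw [this, Complex.div_ofReal_re]
    rw [h2] at h1
    have h3 : (fun k : ℕ => ((4 : ℂ) ^ k * ((b k : ℂ) - κ)).re) = fun k : ℕ => (4 : ℝ) ^ k * (b k - κ') := by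
      funext k
      have h4 : (4 : ℂ) ^ k = (((4 : ℝ) ^ k : ℝ) : ℂ) := by push_cast; rfl
      rw [h4, Complex.re_ofReal_mul, Complex.sub_re, Complex.ofReal_re]
    rw [h3] at h1
    exact h1
  have hub : ∀ k : ℕ, |(4 : ℝ) ^ k * (b k - κ')| ≤ Real.exp G * (4 / 5) ^ k := by
    intro k
    rw [abs_mul, abs_of_pos (by positivity), div_pow]
    have h1 : |b k - κ'| ≤ Real.exp G / 5 ^ k := by
      have h2 := Complex.abs_re_le_norm ((b k : ℂ) - κ)
      rw [Complex.sub_re, Complex.ofReal_re] at h2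
      exact h2.trans (hcau k)
    have h3 : Real.exp G * (4 ^ k / 5 ^ k) = 4 ^ k * (Real.exp G / 5 ^ k) := by ring
    rw [h3]
    exact mul_le_mul_of_nonneg_left h1 (by positivity)
  -- the number of terms
  set N : ℕ := ⌈16 * G⌉₊ with hN
  have hN1 : 16 * G ≤ N := Nat.le_ceil _
  have hN2 : (N : ℝ) ≤ 17 * G := by
    have := Nat.ceil_lt_add_one (show 0 ≤ 16 * G by linarith)
    linarith
  have hN0 : 0 < N := by
    have : (0 : ℝ) < N := by linarith
    exact_mod_cast this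
  have htail : Real.exp G * (4 / 5) ^ N ≤ 1 / 10 := by
    have h1 : ((4 : ℝ) / 5) ^ N = Real.exp (-(N * Real.log (5 / 4))) := by
      rw [Real.exp_neg, Real.exp_nat_mul, Real.exp_log (by norm_num), ← inv_pow]
      norm_num
    rw [h1, ← Real.exp_add]
    refine le_trans (Real.exp_le_exp.2 ?_) RSA_exp
    have h2 := RSA_log
    have h3 : 16 * G * (7 / 32) ≤ N * Real.log (5 / 4) := mul_le_mul hN1 h2 (by norm_num) (by linarith)
    linarith
  have hpow : (4 : ℝ) ^ N ≤ Real.exp (24 * G) := by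
    have h1 : (4 : ℝ) ^ N = Real.exp (N * (2 * Real.log 2)) := by
      rw [Real.exp_nat_mul]
      congr 1
      have h2 : (2 : ℝ) * Real.log 2 = Real.log 2 + Real.log 2 := by ring
      rw [h2, Real.exp_add, Real.exp_log (by norm_num)]
      norm_num
    rw [h1]
    refine Real.exp_le_exp.2 ?_
    have h2 := Real.log_two_lt_d9
    have h3 : N * (2 * Real.log 2) ≤ 17 * G * (2 * Real.log 2) := mul_le_mul_of_nonneg_right hN2 (by
      have := Real.log_nonneg (show (1 : ℝ) ≤ 2 by norm_num)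
      linarith)
    have h4 : 17 * G * (2 * Real.log 2) ≤ 17 * G * (24 / 17) := mul_le_mul_of_nonneg_left (by linarith) (by linarith)
    linarith
  -- splitting the sum
  have hsp := hsum'.summable.sum_add_tsum_nat_add N
  rw [hsum'.tsum_eq] at hsp
  have hT : |∑' k : ℕ, (4 : ℝ) ^ (k + N) * (b (k + N) - κ')| ≤ 1 / 2 := by
    have h1 : HasSum (fun k : ℕ => Real.exp G * (4 / 5) ^ N * (4 / 5) ^ k) (Real.exp G * (4 / 5) ^ N * (1 - 4 / 5)⁻¹) :=
      (hasSum_geometric_of_lt_one (by norm_num) (by norm_num)).mul_left _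
    have h2 : ‖∑' k : ℕ, (4 : ℝ) ^ (k + N) * (b (k + N) - κ')‖ ≤ Real.exp G * (4 / 5) ^ N * (1 - 4 / 5)⁻¹ := by
      refine tsum_of_norm_bounded h1 (fun k => ?_)
      rw [Real.norm_eq_abs]
      refine (hub (k + N)).trans (le_of_eq ?_)
      ring
    rw [Real.norm_eq_abs] at h2
    refine h2.trans ?_
    have h3 : (1 - 4 / 5 : ℝ)⁻¹ = 5 := by norm_num
    rw [h3]
    linarith
  have hfin : ∑ k ∈ Finset.range N, (4 : ℝ) ^ k * (b k - κ') = ∑ k ∈ Finset.range N, (4 : ℝ) ^ k * b k - κ' * ((4 ^ N - 1) / 3) := by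
    have h1 : ∑ k ∈ Finset.range N, (4 : ℝ) ^ k = (4 ^ N - 1) / 3 := by
      rw [geom_sum_eq (by norm_num)]
      norm_num
    rw [← h1, Finset.mul_sum, ← Finset.sum_sub_distrib]
    refine Finset.sum_congr rfl (fun k _ => ?_)
    ring
  have hlow : 1 ≤ ∑ k ∈ Finset.range N, (4 : ℝ) ^ k * b k := by
    have h1 : (4 : ℝ) ^ 0 * b 0 ≤ ∑ k ∈ Finset.range N, (4 : ℝ) ^ k * b k :=
      Finset.single_le_sum (f := fun k => (4 : ℝ) ^ k * b k) (fun k _ => mul_nonneg (by positivity) (hb k)) (Finset.mem_range.2 hN0)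
    rw [pow_zero, one_mul] at h1
    linarith
  rw [hfin] at hsp
  have hT' := abs_le.1 hT
  have hfinal : 1 ≤ κ' * 4 ^ N := by
    have h1 : κ' * ((4 ^ N - 1) / 3) = κ' * 4 ^ N / 3 - κ' / 3 := by ring
    rw [h1] at hsp
    linarith
  have hκpos : 0 < κ' := by
    by_contra hneg
    have h1 : κ' * 4 ^ N ≤ 0 := mul_nonpos_of_nonpos_of_nonneg (not_lt.1 hneg) (by positivity)
    linarith
  have h1 : 1 ≤ κ' * Real.exp (24 * G) := hfinal.trans (mul_le_mul_of_nonneg_left hpow hκpos.le)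
  have h2 : Real.exp (-(24 * G)) ≤ κ' := by
    rw [Real.exp_neg, inv_le_iff_one_le_mul₀ (Real.exp_pos _)]
    exact h1
  exact h2.trans ((le_abs_self _).trans (Complex.abs_re_le_norm κ))

end Pool.Agent.CHE
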